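import Pool.Agent.H70.RW.T
import Pool.Agent.H77.RK.ESY
import Pool.Agent.H70.RC.Targets2

/-!
# The relativizing consequences of PH ⊆ BQP: row ESX
-/

set_option autoImplicit false

namespace Pool.Agent.H28.RW

open Filter Pool.Agent.H6.NB Pool.Agent.H70.RW
open Pool.Agent.H70.RK (Adp)
open Pool.Agent.H97.RC (cost avg_bounds)
open Pool.Agent.H77.RK (comb comb_eq comb_or exists_emb)

/-- ESX -/
theorem pf_ESX (hLST : Pool.Agent.H70.RW.T_LST) (hEVO : Pool.Agent.H70.RW.T_EVO)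
    (hGTE : Pool.Agent.H70.RW.T_GTE) (hADM : Pool.Agent.H70.RK.T_ADM)
    (hSIX : Pool.Agent.H70.RC.T_SIX) (hLOC : Pool.Agent.H70.RC.T_LOC) :
    Pool.Agent.H70.RW.T_ESX := by
  classical
  intro κ V f R c K hK hκ hQ
  obtain ⟨C0, hE⟩ := hEVO κ V c K hK
  refine ⟨c + C0 + 3, ?_⟩
  filter_upwards [hLST κ V c K hK, eventually_ge_atTop 4, eventually_ge_atTop K] with n hn1 hn4 hnK
  intro N hN D hR
  obtain ⟨G, t, hG⟩ := hGTE κ V c K hK hκ n N (by omega) hN D
  obtain ⟨l, hl1, hl2⟩ := hn1 N hN D G t hG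
  choose g hg1 hg2 using fun i => hE n N hn4 hnK hN D G t hG (l i)
  obtain ⟨-, hc2, hc3⟩ := cost n c C0 (by omega)
  set m := n ^ (c + C0 + 3) + (c + C0 + 3) with hm
  obtain ⟨e, he⟩ := exists_emb n
  have hM : 1 ≤ 2 ^ n + 1 := Nat.le_add_left 1 (2 ^ n)
  have hNc : n ^ c + c ≤ N := by
    rw [hN]
    have : n ^ c ≤ n ^ (c + 1) := Nat.pow_le_pow_right (by omega) (by omega)
    omega
  have hR' : ∀ X, ∀ i, Pool.Agent.H70.RC.RightP (R n) (orc V (ins n N D X (l i))) (f n X) :=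
    fun X i => hR X _ _ _ (hl1 i)
  have hx : ∀ A ∈ R n, ∀ X, ∀ i, GoodS V G D X (l i) → (A.prob fun w =>
      comb e g (List.ofFn (e i) ++ w) X) = A.prob (orc V (ins n N D X (l i))) := by
    intro A hA X i hi
    refine (hLOC A).2 (n ^ c + c) _ _ (hQ n A hA).2 fun w hw => ?_
    rw [comb_eq he, hg2 i X hi w (hw.trans hNc)]
  refine ⟨{Q' | Q'.T ≤ m ∧ Q'.Short m ∧ ∃ A : Fin (2 ^ n + 1) → QAlg, (∀ i, A i ∈ R n) ∧
    ∀ O : List Bool → Bool, Q'.prob O = (∑ i, (A i).prob fun w => O (List.ofFn (e i) ++ w)) /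
      ((2 ^ n + 1 : ℕ) : ℝ)}, comb e g, ?_, ?_, ?_⟩
  · intro A hA
    exact ⟨hA.1, hA.2.1⟩
  · intro u
    rcases comb_or e g u with ⟨i, w, h⟩ | h
    · rw [h]
      exact hADM _ _ _ _ _ _ _ _ _ hc2 le_rfl hc2 (by omega) (hg1 i w)
    · rw [h]
      exact Adp.pure _ _
  · intro X
    constructor
    · intro hf
      choose A hA1 hA2 using fun i => (hR' X i).1 hf
      obtain ⟨Q', hQ1, hQ2, hQ3⟩ := hSIX (2 ^ n + 1) (n ^ c + c) A
        (fun i w => List.ofFn (e i) ++ w) hM (fun i => (hQ n (A i) (hA1 i)).1)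
      refine ⟨Q', ⟨?_, ?_, A, hA1, hQ3⟩, ?_⟩
      · rw [hQ1]
        omega
      · refine hQ2 (n ^ c + c) m (fun i => (hQ n (A i) (hA1 i)).2) fun i w hw => ?_
        rw [List.length_append, List.length_ofFn]
        omega
      · have hA := avg_bounds hM (fun i => GoodS V G D X (l i)) (fun i => (A i).prob fun w =>
          comb e g (List.ofFn (e i) ++ w) X) (fun i => (hLOC (A i)).1 _) (hl2 X)
        rw [hQ3]
        refine hA.1 fun i hi => ?_
        rw [hx (A i) (hA1 i) X i hi]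
        exact hA2 i
    · intro hf Q' hQ'
      obtain ⟨-, -, A, hA1, hQ3⟩ := hQ'
      have hA := avg_bounds hM (fun i => GoodS V G D X (l i)) (fun i => (A i).prob fun w =>
          comb e g (List.ofFn (e i) ++ w) X) (fun i => (hLOC (A i)).1 _) (hl2 X)
      rw [hQ3]
      refine hA.2 fun i hi => ?_
      rw [hx (A i) (hA1 i) X i hi]
      exact (hR' X i).2 hf (A i) (hA1 i)

end Pool.Agent.H28.RW
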