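import Pool.Agent.H70.RW.T
import Pool.Agent.H77.RK.ESY

/-!
# The relativizing consequences of PH ⊆ BQP: row ESY
-/

set_option autoImplicit false

namespace Pool.Agent.H28.RW

open Filter Pool.Agent.H6.NB Pool.Agent.H70.RW
open Pool.Agent.H70.RK (Adp)
open Pool.Agent.H97.RC (cost avg_bounds)
open Pool.Agent.H77.RK (comb comb_eq comb_or exists_emb)

/-- ESY -/
theorem pf_ESY (hLST : Pool.Agent.H70.RW.T_LST) (hEVO : Pool.Agent.H70.RW.T_EVO)
    (hGTE : Pool.Agent.H70.RW.T_GTE) (hADM : Pool.Agent.H70.RK.T_ADM)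
    (hSIM : Pool.Agent.H70.RC.T_SIM) (hLOC : Pool.Agent.H70.RC.T_LOC) :
    Pool.Agent.H70.RW.T_ESY := by
  classical
  intro κ V f Q c K hK hκ hQ
  obtain ⟨C0, hE⟩ := hEVO κ V c K hK
  refine ⟨c + C0 + 3, ?_⟩
  filter_upwards [hLST κ V c K hK, eventually_ge_atTop 4, eventually_ge_atTop K] with n hn1 hn4 hnK
  intro N hN D hR
  obtain ⟨G, t, hG⟩ := hGTE κ V c K hK hκ n N (by omega) hN D
  obtain ⟨l, hl1, hl2⟩ := hn1 N hN D G t hG
  choose g hg1 hg2 using fun i => hE n N hn4 hnK hN D G t hG (l i)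
  obtain ⟨-, hc2, hc3⟩ := cost n c C0 (by omega)
  set m := n ^ (c + C0 + 3) + (c + C0 + 3) with hm
  obtain ⟨e, he⟩ := exists_emb n
  have hM : 1 ≤ 2 ^ n + 1 := Nat.le_add_left 1 (2 ^ n)
  obtain ⟨Q', hQ1, hQ2, hQ3⟩ := hSIM (Q n) (2 ^ n + 1) (fun i w => List.ofFn (e i) ++ w) hM
  have hNc : n ^ c + c ≤ N := by
    rw [hN]
    have : n ^ c ≤ n ^ (c + 1) := Nat.pow_le_pow_right (by omega) (by omega)
    omega
  have hR' : ∀ X, ∀ i, Pool.Agent.H70.RC.Right (Q n) (orc V (ins n N D X (l i))) (f n X) :=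
    fun X i => hR X _ _ _ (hl1 i)
  refine ⟨Q', comb e g, ?_, ?_, ?_, ?_⟩
  · rw [hQ1]
    have := (hQ n).1
    omega
  · refine hQ2 (n ^ c + c) m (hQ n).2 fun i w hw => ?_
    rw [List.length_append, List.length_ofFn]
    omega
  · intro u
    rcases comb_or e g u with ⟨i, w, h⟩ | h
    · rw [h]
      exact hADM _ _ _ _ _ _ _ _ _ hc2 le_rfl hc2 (by omega) (hg1 i w)
    · rw [h]
      exact Adp.pure _ _
  · intro X
    have hx : ∀ i, GoodS V G D X (l i) → ((Q n).prob fun w =>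
        comb e g (List.ofFn (e i) ++ w) X) = (Q n).prob (orc V (ins n N D X (l i))) := by
      intro i hi
      refine (hLOC (Q n)).2 (n ^ c + c) _ _ (hQ n).2 fun w hw => ?_
      rw [comb_eq he, hg2 i X hi w (hw.trans hNc)]
    have hA := avg_bounds hM (fun i => GoodS V G D X (l i)) (fun i => (Q n).prob fun w =>
        comb e g (List.ofFn (e i) ++ w) X) (fun i => (hLOC (Q n)).1 _) (hl2 X)
    rw [hQ3]
    constructor
    · intro hf
      refine hA.1 fun i hi => ?_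
      rw [hx i hi]
      exact (hR' X i).1 hf
    · intro hf
      refine hA.2 fun i hi => ?_
      rw [hx i hi]
      exact (hR' X i).2 hf

end Pool.Agent.H28.RW
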