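import Pool.Agent.H70.RW.T

/-!
# The relativizing consequences of PH ⊆ BQP: row MUG
-/

set_option autoImplicit false

namespace Pool.Agent.H28.RW

open Finset
open Pool.Agent.H6.NB (QAlg inst qs)
open Pool.Agent.H78.XQ (T_MAS m0 mB wln rns)
open Pool.Agent.H70.RK (Hn adr)
open Pool.Agent.H70.RW

theorem hn_card_pos {I : Type} {Ch : I → Type} [Finite I] [∀ s, Finite (Ch s)]
    [∀ s, Nonempty (Ch s)] (m : ℕ) : Nonempty (Hn I Ch m) := by
  induction m with
  | zero => exact ⟨()⟩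
  | succ m ih =>
    obtain ⟨h⟩ := ih
    exact ⟨(fun x => Classical.choice inferInstance, h)⟩

theorem pf_MUG (hBLG : Pool.Agent.H70.RW.T_BLG) (hRZG : Pool.Agent.H70.RW.T_RZG)
    (hHYC : Pool.Agent.H70.RK.T_HYC) (hMAS : T_MAS) : Pool.Agent.H70.RW.T_MUG := by
  classical
  intro κ V D n N K G t hK hG hN2 h3k hnN h4 h2N X
  obtain ⟨ε, hε⟩ : ∃ ε : ℝ, ε = 2 ^ (N + 1) *
    (K * (2 ^ N) ^ K * (3 * (4 * N ^ (K + 2) / 2 ^ (4 * n)) ^ N)) := ⟨_, rfl⟩
  obtain ⟨Δ, hΔ⟩ : ∃ Δ : ℝ, Δ = ∑ p : Bi n N, (1 / 8 : ℝ) ^ (p.1.1.length + 20) := ⟨_, rfl⟩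
  rw [← hε, ← hΔ]
  have hRs : (0 : ℝ) < Fintype.card (Rs K n N) := by
    have : 0 < Fintype.card (Rs K n N) := Fintype.card_pos_iff.2 ⟨fun _ _ _ => false⟩
    exact_mod_cast this
  have hAd : (0 : ℝ) < Fintype.card (Hi K n N) := by
    have : 0 < Fintype.card (Hi K n N) := Fintype.card_pos_iff.2 (hn_card_pos K)
    exact_mod_cast this
  have hAr : (0 : ℝ) < Fintype.card (Ar n N) := by
    have : 0 < Fintype.card (Ar n N) := Fintype.card_pos_iff.2 ⟨fun _ _ => false⟩
    exact_mod_cast this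
  obtain ⟨nA, hnA⟩ : ∃ nA : ℝ, nA = (Fintype.card (Hi K n N) : ℝ) * Fintype.card (Ar n N) :=
    ⟨_, rfl⟩
  have hnAA : 0 < nA := hnA ▸ mul_pos hAd hAr
  obtain ⟨U, hU⟩ : ∃ U : Bl n N → ℝ, U = fun P => ∏ p : Bi n N,
    m0 (qs (hl p)) (hl p).length (wln (hl p)) (P p) := ⟨_, rfl⟩
  have hU1 : ∑ P, U P = 1 := by
    rw [hU]
    have h1 := Finset.prod_univ_sum (fun p : Bi n N => (univ : Finset (CB (hl p))))
      (fun p c => m0 (qs (hl p)) (hl p).length (wln (hl p)) c)
    rw [Fintype.piFinset_univ] at h1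
    rw [← h1]
    exact Finset.prod_eq_one fun p _ => (hMAS _ _ 0 _).2.1
  have hU0 : ∀ P, 0 ≤ U P := by
    intro P
    rw [hU]
    exact Finset.prod_nonneg fun p _ => (hMAS _ _ 0 _).1 _
  -- the statement for fixed ends
  have hy : ∀ y : Rs K n N, (1 - ε) * nA - nA * Δ ≤
      ∑ a : Hi K n N, ∑ h : Ar n N, ∑ P : Bl n N,
      (∏ p : Bi n N, mB (qs (hl p)) (hl p).length (rns (hl p)) (wln (hl p))
        (adk y a p.1 p.2.1 p.2.2) (P p)) *
        (if GoodS V G D X (y, a, h, P) then (1 : ℝ) else 0) := by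
    intro y
    have hah : ∀ (a : Hi K n N) (h : Ar n N),
        ∑ P : Bl n N, U P * (if GoodS V G D X (y, a, h, P) then 1 else 0) - Δ ≤
        ∑ P : Bl n N, (∏ p : Bi n N, mB (qs (hl p)) (hl p).length (rns (hl p)) (wln (hl p))
          (adk y a p.1 p.2.1 p.2.2) (P p)) *
          (if GoodS V G D X (y, a, h, P) then 1 else 0) := by
      intro a h
      rw [hU, hΔ]
      refine hHYC (Bi n N) (fun p => CB (hl p))
        (fun p c => m0 (qs (hl p)) (hl p).length (wln (hl p)) c)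
        (fun p c => mB (qs (hl p)) (hl p).length (rns (hl p)) (wln (hl p))
          (adk y a p.1 p.2.1 p.2.2) c)
        (fun P => if GoodS V G D X (y, a, h, P) then 1 else 0)
        (fun p => (1 / 8 : ℝ) ^ (p.1.1.length + 20))
        (fun p c => (hMAS _ _ 0 _).1 _) (fun p => (hMAS _ _ 0 _).2.1.le)
        (fun p c => ((hMAS _ _ _ _).2.2 _).1 _) (fun p => ((hMAS _ _ _ _).2.2 _).2)
        (fun P => by split_ifs <;> norm_num) (fun p => by positivity) ?_
      intro p P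
      exact hBLG κ V D n N K G t hK hG hN2 h3k hnN h2N X y a h P p (adk y a p.1 p.2.1 p.2.2)
    have hsum := Finset.sum_le_sum fun (a : Hi K n N) (_ : a ∈ univ) =>
      Finset.sum_le_sum fun (h : Ar n N) (_ : h ∈ univ) => hah a h
    simp only [Finset.sum_sub_distrib, Finset.sum_const, Finset.card_univ, nsmul_eq_mul] at hsum
    -- the left side
    have hleft : (1 - ε) * nA ≤ ∑ a : Hi K n N, ∑ h : Ar n N, ∑ P : Bl n N,
        U P * (if GoodS V G D X (y, a, h, P) then 1 else 0) := by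
      have h1 : ∑ a : Hi K n N, ∑ h : Ar n N, ∑ P : Bl n N,
          U P * (if GoodS V G D X (y, a, h, P) then (1 : ℝ) else 0) =
          ∑ P : Bl n N, U P * ∑ a : Hi K n N, ∑ h : Ar n N,
            (if GoodS V G D X (y, a, h, P) then (1 : ℝ) else 0) := by
        simp only [Finset.mul_sum]
        have h2 : ∀ a : Hi K n N, ∑ h : Ar n N, ∑ P : Bl n N,
            U P * (if GoodS V G D X (y, a, h, P) then (1 : ℝ) else 0) =
            ∑ P : Bl n N, ∑ h : Ar n N,
              U P * (if GoodS V G D X (y, a, h, P) then (1 : ℝ) else 0) :=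
          fun a => Finset.sum_comm
        simp only [h2]
        exact Finset.sum_comm
      rw [h1]
      have h2 : (1 - ε) * nA = ∑ P : Bl n N, U P * ((1 - ε) * nA) := by
        rw [← Finset.sum_mul, hU1, one_mul]
      rw [h2]
      refine Finset.sum_le_sum fun P _ => mul_le_mul_of_nonneg_left ?_ (hU0 P)
      have h3 := hRZG κ V D n N K G t hK hG hN2 (by omega) hnN h4 X y P
      rw [← hε, ← hnA] at h3
      exact h3
    have hconst : (Fintype.card (Hi K n N) : ℝ) * ((Fintype.card (Ar n N) : ℝ) * Δ) =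
        nA * Δ := by
      rw [hnA]
      ring
    rw [hconst] at hsum
    exact (sub_le_sub_right hleft _).trans hsum
  obtain ⟨nR, hnR⟩ : ∃ nR : ℝ, nR = (Fintype.card (Rs K n N) : ℝ) := ⟨_, rfl⟩
  have hnRR : 0 < nR := hnR ▸ hRs
  have hsum2 := Finset.sum_le_sum fun (y : Rs K n N) (_ : y ∈ univ) => hy y
  rw [Finset.sum_const, Finset.card_univ, nsmul_eq_mul, ← hnR] at hsum2
  have hright : ∑ y : Rs K n N, ∑ a : Hi K n N, ∑ h : Ar n N, ∑ P : Bl n N,
      (∏ p : Bi n N, mB (qs (hl p)) (hl p).length (rns (hl p)) (wln (hl p))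
        (adk y a p.1 p.2.1 p.2.2) (P p)) *
        (if GoodS V G D X (y, a, h, P) then (1 : ℝ) else 0) =
      (nR * nA) * ∑ σ : Se K n N, mu σ * (if GoodS V G D X σ then 1 else 0) := by
    rw [Fintype.sum_prod_type, Finset.mul_sum]
    refine Finset.sum_congr rfl fun y _ => ?_
    rw [Fintype.sum_prod_type, Finset.mul_sum]
    refine Finset.sum_congr rfl fun a _ => ?_
    rw [Fintype.sum_prod_type, Finset.mul_sum]
    refine Finset.sum_congr rfl fun h _ => ?_
    rw [Finset.mul_sum]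
    refine Finset.sum_congr rfl fun P _ => ?_
    have hm : mu ((y, a, h, P) : Se K n N) = 1 / (nR * nA) *
        ∏ p : Bi n N, mB (qs (hl p)) (hl p).length (rns (hl p)) (wln (hl p))
          (adk y a p.1 p.2.1 p.2.2) (P p) := by
      unfold mu
      simp only
      rw [hnR, hnA, mul_assoc (Fintype.card (Rs K n N) : ℝ)]
    rw [hm, ← mul_assoc, ← mul_assoc, mul_one_div_cancel (mul_pos hnRR hnAA).ne', one_mul]
  rw [hright] at hsum2
  have h10 : (nR * nA) * (1 - (Δ + ε)) = nR * ((1 - ε) * nA - nA * Δ) := by ring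
  exact le_of_mul_le_mul_left (h10.trans_le hsum2) (mul_pos hnRR hnAA)

end Pool.Agent.H28.RW
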